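import Pool.Agent.T6.H68.BL.Avg
import Pool.Agent.H548.BL.Pack

/-!
# Lattice points in balls
-/

set_option autoImplicit false

namespace Pool.Agent.T6.H68.BL

open Module MeasureTheory Metric
open scoped ENNReal Topology

section
variable {E : Type*} [NormedAddCommGroup E] [NormedSpace ℝ E] [FiniteDimensional ℝ E]
  (L : Submodule ℤ E) [DiscreteTopology L]

/-- lattice points in a subspace -/
theorem count_sub (W : Submodule ℝ E) {l : ℝ} (hl : 0 < l) (hsep : ∀ v ∈ L, v ≠ 0 → l ≤ ‖v‖)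
    {Y : ℝ} (hY : 0 ≤ Y) (hW : ∀ v ∈ GG L Y, v ∈ W) :
    ((GG L Y).ncard : ℝ) ≤ (2 * Y / l + 1) ^ finrank ℝ W := by
  classical
  have hfin := GG_finite L Y
  set s : Finset W := hfin.toFinset.subtype (· ∈ W) with hs
  have hcard : s.card = (GG L Y).ncard := by
    rw [hs, Finset.card_subtype, Set.ncard_eq_toFinset_card _ hfin]
    congr 1
    refine Finset.filter_true_of_mem fun v hv => hW v ?_
    rwa [Set.Finite.mem_toFinset] at hv
  have hmem : ∀ c ∈ s, (c : E) ∈ GG L Y := by
    intro c hc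
    rw [hs, Finset.mem_subtype, Set.Finite.mem_toFinset] at hc
    exact hc
  rw [← hcard]
  refine Pool.Agent.H548.BL.sep_card s Y l hl hY (fun c hc => (hmem c hc).2) ?_
  intro c hc d hd hcd
  refine hsep ((c : E) - d) (L.sub_mem (hmem c hc).1 (hmem d hd).1) ?_
  intro h
  exact hcd (Subtype.ext (sub_eq_zero.1 h))

/-- doubling -/
theorem doubling {r Y : ℝ} (hr : 0 < r) (hY : 0 ≤ Y) :
    ((GG L Y).ncard : ℝ) ≤ (2 * Y / r + 1) ^ finrank ℝ E * ((GG L r).ncard : ℝ) := by
  classical
  have hfin := GG_finite L Y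
  have hfinr := GG_finite L r
  set G := hfin.toFinset with hG
  set Sm := hfinr.toFinset with hSm
  set Q : Finset (Finset E) := G.powerset.filter
    fun P => ∀ c ∈ P, ∀ d ∈ P, c ≠ d → r ≤ ‖c - d‖ with hQ
  have hQne : Q.Nonempty := ⟨∅, by rw [hQ, Finset.mem_filter]; simp⟩
  obtain ⟨P, hP, hmax⟩ := Finset.exists_max_image Q Finset.card hQne
  rw [hQ, Finset.mem_filter, Finset.mem_powerset] at hP
  obtain ⟨hPG, hPs⟩ := hP
  have hGm : ∀ v, v ∈ G ↔ v ∈ L ∧ ‖v‖ ≤ Y := fun v => by
    rw [hG, Set.Finite.mem_toFinset]; rfl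
  have hSmm : ∀ v, v ∈ Sm ↔ v ∈ L ∧ ‖v‖ ≤ r := fun v => by
    rw [hSm, Set.Finite.mem_toFinset]; rfl
  have hcov : G ⊆ P.biUnion fun p => Sm.image fun u => p + u := by
    intro v hv
    rw [Finset.mem_biUnion]
    by_contra hcon
    push Not at hcon
    have hfar : ∀ p ∈ P, r ≤ ‖v - p‖ := by
      intro p hp
      by_contra hlt
      push Not at hlt
      apply hcon p hp
      rw [Finset.mem_image]
      refine ⟨v - p, (hSmm _).2 ⟨L.sub_mem ((hGm v).1 hv).1 ((hGm p).1 (hPG hp)).1, hlt.le⟩, by abel⟩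
    have hvP : v ∉ P := by
      intro h
      have h1 := hfar v h
      rw [sub_self, norm_zero] at h1
      linarith
    have h1 : insert v P ∈ Q := by
      rw [hQ, Finset.mem_filter, Finset.mem_powerset]
      refine ⟨Finset.insert_subset hv hPG, ?_⟩
      intro c hc d hd hcd
      rw [Finset.mem_insert] at hc hd
      rcases hc with rfl | hc <;> rcases hd with rfl | hd
      · exact absurd rfl hcd
      · exact hfar d hd
      · rw [norm_sub_rev]
        exact hfar c hc
      · exact hPs c hc d hd hcd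
    have h2 := hmax _ h1
    rw [Finset.card_insert_of_notMem hvP] at h2
    omega
  have hPc : (P.card : ℝ) ≤ (2 * Y / r + 1) ^ finrank ℝ E :=
    Pool.Agent.H548.BL.sep_card P Y r hr hY (fun c hc => ((hGm c).1 (hPG hc)).2) hPs
  have h3 : G.card ≤ P.card * Sm.card := by
    refine (Finset.card_le_card hcov).trans (Finset.card_biUnion_le.trans ?_)
    refine (Finset.sum_le_card_nsmul _ _ Sm.card fun p _ => Finset.card_image_le).trans ?_
    simp
  rw [Set.ncard_eq_toFinset_card _ hfin, Set.ncard_eq_toFinset_card _ hfinr]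
  have h4 : (G.card : ℝ) ≤ (P.card : ℝ) * Sm.card := by exact_mod_cast h3
  exact h4.trans (mul_le_mul_of_nonneg_right hPc (Nat.cast_nonneg _))

variable [IsZLattice ℝ L]

/-- the largest successive minimum -/
theorem exists_R (ha : 0 < finrank ℝ E) : ∃ R : ℝ, 0 < R ∧ (∃ v ∈ L, v ≠ 0 ∧ ‖v‖ = R) ∧
    (∀ x : E, ∃ v ∈ L, ‖x - v‖ ≤ finrank ℝ E * R) ∧
    ∀ r < R, ∃ W : Submodule ℝ E, finrank ℝ W < finrank ℝ E ∧ ∀ v ∈ GG L r, v ∈ W := by
  classical
  have hne : (⊥ : Submodule ℝ E) ≠ ⊤ := by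
    intro h
    have h1 := finrank_top ℝ E
    rw [← h, finrank_bot] at h1
    omega
  let Sp : ℝ → Prop := fun r => Submodule.span ℝ (GG L r) = ⊤
  have hSp : ∀ {r r' : ℝ}, GG L r ⊆ GG L r' → Sp r → Sp r' := by
    intro r r' h h1
    have h2 := Submodule.span_mono (R := ℝ) h
    rw [show Submodule.span ℝ (GG L r) = ⊤ from h1] at h2
    exact top_le_iff.1 h2
  have hSpne : ∀ {r : ℝ}, Sp r → ∃ v ∈ GG L r, v ≠ 0 := by
    intro r h
    by_contra hcon
    push Not at hcon
    apply hne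
    rw [← show Submodule.span ℝ (GG L r) = ⊤ from h, eq_comm, Submodule.span_eq_bot]
    exact hcon
  have hmaxn : ∀ {r : ℝ}, Sp r → ∃ v ∈ GG L r, Sp ‖v‖ := by
    intro r h
    obtain ⟨v, hv, _⟩ := hSpne h
    obtain ⟨u, hu, humax⟩ := Finset.exists_max_image (GG_finite L r).toFinset (fun v => ‖v‖)
      ⟨v, by rwa [Set.Finite.mem_toFinset]⟩
    rw [Set.Finite.mem_toFinset] at hu
    refine ⟨u, hu, hSp ?_ h⟩
    intro w hw
    exact ⟨hw.1, humax w (by rwa [Set.Finite.mem_toFinset])⟩
  -- a radius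
  obtain ⟨r0, hr0⟩ : ∃ r, Sp r := by
    have hfin : Module.Finite ℤ L := ZLattice.module_finite ℝ L
    have hfree : Module.Free ℤ L := ZLattice.module_free ℝ L
    let b := Module.Free.chooseBasis ℤ L
    let b' := b.ofZLatticeBasis ℝ L
    refine ⟨∑ i, ‖b' i‖, ?_⟩
    have h1 : Set.range b' ⊆ GG L (∑ i, ‖b' i‖) := by
      rintro _ ⟨i, rfl⟩
      refine ⟨?_, Finset.single_le_sum (f := fun i => ‖b' i‖) (fun i _ => norm_nonneg _)
        (Finset.mem_univ i)⟩
      rw [Basis.ofZLatticeBasis_apply]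
      exact (b i).2
    have h2 := Submodule.span_mono (R := ℝ) h1
    rw [b'.span_eq] at h2
    exact top_le_iff.1 h2
  obtain ⟨v0, hv0, hv0S⟩ := hmaxn hr0
  obtain ⟨v1, hv1, hmin⟩ := Finset.exists_min_image
    ((GG_finite L r0).toFinset.filter fun v => Sp ‖v‖) (fun v => ‖v‖)
    ⟨v0, by rw [Finset.mem_filter, Set.Finite.mem_toFinset]; exact ⟨hv0, hv0S⟩⟩
  rw [Finset.mem_filter, Set.Finite.mem_toFinset] at hv1
  obtain ⟨hv1G, hv1S⟩ := hv1
  have hv1ne : v1 ≠ 0 := by
    rintro rfl
    obtain ⟨u, hu, hune⟩ := hSpne hv1S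
    rw [norm_zero] at hu
    exact hune (norm_le_zero_iff.1 hu.2)
  refine ⟨‖v1‖, norm_pos_iff.2 hv1ne, ⟨v1, hv1G.1, hv1ne, rfl⟩, ?_, ?_⟩
  · -- covering
    obtain ⟨B, hBsub, hBspan, hBli⟩ := exists_linearIndependent ℝ (GG L ‖v1‖)
    have hBfin : B.Finite := (GG_finite L ‖v1‖).subset hBsub
    have hBf : Fintype B := hBfin.fintype
    have hspan : ⊤ ≤ Submodule.span ℝ (Set.range ((↑) : B → E)) := by
      rw [Subtype.range_coe, hBspan]
      exact (show Submodule.span ℝ (GG L ‖v1‖) = ⊤ from hv1S).ge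
    let bb : Basis B ℝ E := Basis.mk hBli hspan
    have hbb : ∀ i, bb i = (i : E) := fun i => by
      change Basis.mk hBli hspan i = _
      rw [Basis.mk_apply]
    have hcard : Fintype.card B = finrank ℝ E := (finrank_eq_card_basis bb).symm
    intro x
    refine ⟨∑ i, ⌊bb.repr x i⌋ • (i : E), L.sum_mem fun i _ => L.smul_mem _ (hBsub i.2).1, ?_⟩
    have h0 : ∑ i : B, bb.repr x i • (i : E) = x := by
      have h := bb.sum_repr x
      simp only [hbb] at h
      exact h
    have h1 : x - ∑ i, ⌊bb.repr x i⌋ • (i : E) = ∑ i : B, Int.fract (bb.repr x i) • (i : E) := by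
      calc x - ∑ i, ⌊bb.repr x i⌋ • (i : E) =
          ∑ i : B, bb.repr x i • (i : E) - ∑ i, ⌊bb.repr x i⌋ • (i : E) := by rw [h0]
        _ = _ := by
          rw [← Finset.sum_sub_distrib]
          refine Finset.sum_congr rfl fun i _ => ?_
          rw [Int.fract, sub_smul, Int.cast_smul_eq_zsmul]
    rw [h1]
    refine (norm_sum_le _ _).trans ?_
    have h2 : ∀ i ∈ (Finset.univ : Finset B), ‖Int.fract (bb.repr x i) • (i : E)‖ ≤ ‖v1‖ := by
      intro i _
      rw [norm_smul, Real.norm_eq_abs, abs_of_nonneg (Int.fract_nonneg _)]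
      have h3 := (hBsub i.2).2
      have h4 := (Int.fract_lt_one (bb.repr x i)).le
      have h5 := Int.fract_nonneg (bb.repr x i)
      nlinarith [norm_nonneg (i : E)]
    refine (Finset.sum_le_card_nsmul _ _ _ h2).trans ?_
    rw [Finset.card_univ, hcard, nsmul_eq_mul]
  · intro r hr
    refine ⟨Submodule.span ℝ (GG L r), ?_, fun v hv => Submodule.subset_span hv⟩
    refine Submodule.finrank_lt fun hS => ?_
    have hSr : Sp r := hS
    obtain ⟨u, hu, huS⟩ := hmaxn hSr
    have hv1r0 := hv1G.2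
    have h1 := hmin u (by
      rw [Finset.mem_filter, Set.Finite.mem_toFinset]
      exact ⟨⟨hu.1, hu.2.trans (hr.le.trans hv1r0)⟩, huS⟩)
    have h2 := hu.2
    linarith

end

/-- the constant -/
noncomputable def CC (a : ℕ) : ℝ :=
  ((8 * a + 1) ^ a * 2 ^ (a - 1)) * (2 * a ^ 2 * 2 ^ (a - 1) + a + 1) + 2 ^ (a - 1) +
    (4 * a + 1) ^ a

theorem main (a : ℕ) (ha : 1 ≤ a) {E : Type*} [NormedAddCommGroup E] [NormedSpace ℝ E]
    [FiniteDimensional ℝ E] (L : Submodule ℤ E) [DiscreteTopology L] [IsZLattice ℝ L]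
    (hE : finrank ℝ E = a) :
    ∃ c : ℝ, 0 ≤ c ∧ ∀ l : ℝ, 0 < l → (∀ v ∈ L, v ≠ 0 → l ≤ ‖v‖) → c * l ^ a ≤ CC a ∧
      ∀ Y : ℝ, 0 ≤ Y → (GG L Y).Finite ∧
        |((GG L Y).ncard : ℝ) - c * Y ^ a| ≤ CC a * (1 + Y / l) ^ (a - 1) := by
  obtain ⟨c, hc, havg⟩ := avg L
  obtain ⟨R, hR, ⟨v1, hv1, hv1ne, hv1R⟩, hcov, hsub⟩ := exists_R L (by omega)
  rw [hE] at havg hcov hsub
  refine ⟨c, hc, fun l hl hsep => ?_⟩
  have ha0 : (1 : ℝ) ≤ a := by exact_mod_cast ha
  have hlR : l ≤ R := by
    rw [← hv1R]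
    exact hsep v1 hv1 hv1ne
  set d : ℝ := a * R with hd
  have hd0 : 0 < d := by positivity
  have hRd : R ≤ d := by
    rw [hd]
    nlinarith
  obtain ⟨m, rfl⟩ : ∃ m, a = m + 1 := ⟨a - 1, by omega⟩
  rw [Nat.add_sub_cancel]
  -- small radii
  have hsmall : ∀ r : ℝ, 0 ≤ r → r < R → ((GG L r).ncard : ℝ) ≤ (2 * r / l + 1) ^ m := by
    intro r hr0 hr
    obtain ⟨W, hW, hWr⟩ := hsub r hr
    refine (count_sub L W hl hsep hr0 hWr).trans ?_
    refine pow_le_pow_right₀ ?_ (by omega)
    have : 0 ≤ 2 * r / l := by positivity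
    linarith
  set C1 : ℝ := (8 * ((m + 1 : ℕ) : ℝ) + 1) ^ (m + 1) * 2 ^ m with hC1
  have hC1pos : 0 ≤ C1 := by positivity
  have hhalf : ((GG L (R / 2)).ncard : ℝ) ≤ (R / l + 1) ^ m := by
    have h := hsmall (R / 2) (by positivity) (by linarith)
    have e : 2 * (R / 2) / l = R / l := by ring
    rwa [e] at h
  have hRl : 1 ≤ R / l := by
    rw [le_div_iff₀ hl]
    linarith
  -- `c R l ^ m ≤ C1`
  have hcR : c * R * l ^ m ≤ C1 := by
    have h1 := (havg d hcov d hd0.le).2
    have h2 := doubling L (r := R / 2) (Y := d + d) (by positivity) (by positivity)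
    rw [hE] at h2
    have e : 2 * (d + d) / (R / 2) + 1 = 8 * ((m + 1 : ℕ) : ℝ) + 1 := by
      rw [hd]
      field_simp
      ring
    rw [e] at h2
    have h3 : (R / l + 1) ^ m ≤ (2 * (R / l)) ^ m := by
      refine pow_le_pow_left₀ (by positivity) (by linarith) m
    have h4 : c * d ^ (m + 1) ≤ C1 * (R / l) ^ m := by
      calc c * d ^ (m + 1) ≤ ((GG L (d + d)).ncard : ℝ) := h1
        _ ≤ (8 * ((m + 1 : ℕ) : ℝ) + 1) ^ (m + 1) * ((GG L (R / 2)).ncard : ℝ) := h2
        _ ≤ (8 * ((m + 1 : ℕ) : ℝ) + 1) ^ (m + 1) * (2 * (R / l)) ^ m :=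
            mul_le_mul_of_nonneg_left (hhalf.trans h3) (by positivity)
        _ = C1 * (R / l) ^ m := by
            rw [hC1, mul_pow]
            ring
    have h5 : R ^ (m + 1) ≤ d ^ (m + 1) := pow_le_pow_left₀ hR.le hRd _
    have h6 : c * R ^ (m + 1) ≤ C1 * (R / l) ^ m :=
      (mul_le_mul_of_nonneg_left h5 hc).trans h4
    have hRm : 0 < R ^ m := by positivity
    have hlm : 0 < l ^ m := by positivity
    rw [div_pow] at h6
    have h7 : c * R ^ (m + 1) * l ^ m ≤ C1 * R ^ m := by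
      have := mul_le_mul_of_nonneg_right h6 hlm.le
      have e2 : C1 * (R ^ m / l ^ m) * l ^ m = C1 * R ^ m := by
        field_simp
      rwa [e2] at this
    have h8 : (c * R * l ^ m) * R ^ m ≤ C1 * R ^ m := by
      calc (c * R * l ^ m) * R ^ m = c * R ^ (m + 1) * l ^ m := by ring
        _ ≤ _ := h7
    exact le_of_mul_le_mul_right h8 hRm
  have hclY : ∀ Y : ℝ, 0 ≤ Y → c * R * Y ^ m ≤ C1 * (1 + Y / l) ^ m := by
    intro Y hY
    have h1 : c * R * Y ^ m = (c * R * l ^ m) * (Y / l) ^ m := by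
      rw [div_pow]
      field_simp
    rw [h1]
    refine mul_le_mul hcR ?_ (by positivity) hC1pos
    exact pow_le_pow_left₀ (by positivity) (by linarith) m
  have hCC : CC (m + 1) = C1 * (2 * ((m + 1 : ℕ) : ℝ) ^ 2 * 2 ^ m + ((m + 1 : ℕ) : ℝ) + 1) +
      2 ^ m + (4 * ((m + 1 : ℕ) : ℝ) + 1) ^ (m + 1) := by
    unfold CC
    rw [Nat.add_sub_cancel]
  set aa : ℝ := ((m + 1 : ℕ) : ℝ) with haa
  refine ⟨?_, fun Y hY => ⟨GG_finite L Y, ?_⟩⟩
  · have h1 : c * l ^ (m + 1) ≤ c * R * l ^ m := by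
      have : c * l ^ (m + 1) = c * l * l ^ m := by ring
      rw [this]
      exact mul_le_mul_of_nonneg_right (mul_le_mul_of_nonneg_left hlR hc) (by positivity)
    have h2 : C1 ≤ CC (m + 1) := by
      rw [hCC]
      have : 0 ≤ C1 * (2 * aa ^ 2 * 2 ^ m + aa) := by positivity
      have h3 : (0 : ℝ) ≤ 2 ^ m := by positivity
      have h4 : 0 ≤ (4 * aa + 1) ^ (m + 1) := by positivity
      nlinarith
    linarith
  · set X : ℝ := (1 + Y / l) ^ m with hX
    have hXpos : 0 ≤ X := by positivity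
    have hn0 : (0 : ℝ) ≤ ((GG L Y).ncard : ℝ) := Nat.cast_nonneg _
    have hcY0 : 0 ≤ c * Y ^ (m + 1) := by positivity
    have hb1 : C1 * X * (2 * aa ^ 2 * 2 ^ m) ≤ CC (m + 1) * X := by
      rw [hCC]
      have h1 : 0 ≤ C1 * X := by positivity
      have h2 : 0 ≤ C1 * X * (aa + 1) := by positivity
      have h3 : (0 : ℝ) ≤ 2 ^ m * X := by positivity
      have h4 : 0 ≤ (4 * aa + 1) ^ (m + 1) * X := by positivity
      nlinarith
    have hb2 : C1 * X + 2 ^ m * X ≤ CC (m + 1) * X := by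
      rw [hCC]
      have h1 : 0 ≤ C1 * X * (2 * aa ^ 2 * 2 ^ m + aa) := by positivity
      have h4 : 0 ≤ (4 * aa + 1) ^ (m + 1) * X := by positivity
      nlinarith
    have hb3 : aa * (C1 * X) + (4 * aa + 1) ^ (m + 1) * X ≤ CC (m + 1) * X := by
      rw [hCC]
      have h1 : 0 ≤ C1 * X * (2 * aa ^ 2 * 2 ^ m + 1) := by positivity
      have h3 : (0 : ℝ) ≤ 2 ^ m * X := by positivity
      nlinarith
    rcases lt_or_ge Y R with hYR | hYR
    · -- `Y < R`
      have h1 : ((GG L Y).ncard : ℝ) ≤ 2 ^ m * X := by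
        refine (hsmall Y hY hYR).trans ?_
        rw [hX, ← mul_pow]
        refine pow_le_pow_left₀ (by positivity) ?_ m
        have : 2 * Y / l = 2 * (Y / l) := by ring
        rw [this]
        linarith
      have h2 : c * Y ^ (m + 1) ≤ C1 * X := by
        have : c * Y ^ (m + 1) = c * Y * Y ^ m := by ring
        rw [this]
        exact (mul_le_mul_of_nonneg_right (mul_le_mul_of_nonneg_left hYR.le hc)
          (by positivity)).trans (hclY Y hY)
      have h3 : (0 : ℝ) ≤ 2 ^ m * X := by positivity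
      have h4 : 0 ≤ C1 * X := by positivity
      rw [abs_le]
      constructor <;> linarith
    · rcases lt_or_ge Y d with hYd | hYd
      · -- `R ≤ Y < d`
        have h1 : ((GG L Y).ncard : ℝ) ≤ (4 * aa + 1) ^ (m + 1) * X := by
          have h2 := doubling L (r := R / 2) (Y := Y) (by positivity) hY
          rw [hE] at h2
          refine h2.trans (mul_le_mul ?_ ?_ (Nat.cast_nonneg _) (by positivity))
          · refine pow_le_pow_left₀ (by positivity) ?_ _
            have h5 : 2 * Y / (R / 2) ≤ 4 * aa := by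
              rw [div_le_iff₀ (by positivity)]
              rw [hd] at hYd
              nlinarith
            linarith
          · refine hhalf.trans ?_
            rw [hX]
            refine pow_le_pow_left₀ (by positivity) ?_ m
            have h6 : R / l ≤ Y / l := div_le_div_of_nonneg_right hYR hl.le
            linarith
        have h2 : c * Y ^ (m + 1) ≤ aa * (C1 * X) := by
          have h3 : c * Y ^ (m + 1) = c * Y * Y ^ m := by ring
          rw [h3]
          have h4 : c * Y * Y ^ m ≤ c * d * Y ^ m :=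
            mul_le_mul_of_nonneg_right (mul_le_mul_of_nonneg_left hYd.le hc) (by positivity)
          have h5 : c * d * Y ^ m = aa * (c * R * Y ^ m) := by
            rw [hd]
            ring
          rw [h5] at h4
          exact h4.trans (mul_le_mul_of_nonneg_left (hclY Y hY) (by positivity))
        have h3 : 0 ≤ (4 * aa + 1) ^ (m + 1) * X := by positivity
        have h4 : 0 ≤ aa * (C1 * X) := by positivity
        rw [abs_le]
        constructor <;> linarith
      · -- `d ≤ Y`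
        have hup : ((GG L Y).ncard : ℝ) ≤ c * (Y + d) ^ (m + 1) := by
          have h1 := (havg d hcov (Y + d) (by positivity)).1
          rwa [add_sub_cancel_right] at h1
        have hlow : c * (Y - d) ^ (m + 1) ≤ ((GG L Y).ncard : ℝ) := by
          have h1 := (havg d hcov (Y - d) (by linarith)).2
          rwa [sub_add_cancel] at h1
        have hpow : ∀ x y : ℝ, 0 ≤ y → y ≤ x →
            x ^ (m + 1) - y ^ (m + 1) ≤ (x - y) * ((m + 1 : ℕ) * x ^ m) := by
          intro x y hy hxy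
          rw [← Commute.geom_sum₂_mul (Commute.all x y) (m + 1)]
          rw [mul_comm]
          refine mul_le_mul_of_nonneg_left ?_ (by linarith)
          refine (Finset.sum_le_card_nsmul _ _ (x ^ m) ?_).trans ?_
          · intro i hi
            rw [Finset.mem_range] at hi
            have h1 : x ^ i * y ^ (m + 1 - 1 - i) ≤ x ^ i * x ^ (m + 1 - 1 - i) :=
              mul_le_mul_of_nonneg_left (pow_le_pow_left₀ hy hxy _) (pow_nonneg (hy.trans hxy) i)
            refine h1.trans ?_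
            rw [← pow_add]
            apply le_of_eq
            congr 1
            omega
          · rw [Finset.card_range, nsmul_eq_mul]
        have h1 := hpow (Y + d) (Y - d) (by linarith) (by linarith)
        have h2 : (Y + d) ^ m ≤ 2 ^ m * Y ^ m := by
          rw [← mul_pow]
          exact pow_le_pow_left₀ (by linarith) (by linarith) m
        have h3 : c * ((Y + d) ^ (m + 1) - (Y - d) ^ (m + 1)) ≤
            C1 * X * (2 * aa ^ 2 * 2 ^ m) := by
          calc c * ((Y + d) ^ (m + 1) - (Y - d) ^ (m + 1))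
              ≤ c * ((Y + d - (Y - d)) * (aa * (Y + d) ^ m)) :=
                mul_le_mul_of_nonneg_left h1 hc
            _ ≤ c * ((Y + d - (Y - d)) * (aa * (2 ^ m * Y ^ m))) := by
                refine mul_le_mul_of_nonneg_left ?_ hc
                refine mul_le_mul_of_nonneg_left ?_ (by linarith)
                exact mul_le_mul_of_nonneg_left h2 (by linarith)
            _ = (c * R * Y ^ m) * (2 * aa ^ 2 * 2 ^ m) := by
                rw [hd]
                ring
            _ ≤ _ := mul_le_mul_of_nonneg_right (hclY Y hY) (by positivity)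
        have h4 : (Y - d) ^ (m + 1) ≤ Y ^ (m + 1) := pow_le_pow_left₀ (by linarith) (by linarith) _
        have h5 : Y ^ (m + 1) ≤ (Y + d) ^ (m + 1) := pow_le_pow_left₀ hY (by linarith) _
        have h6 := mul_le_mul_of_nonneg_left h4 hc
        have h7 := mul_le_mul_of_nonneg_left h5 hc
        rw [abs_le]
        constructor <;> linarith

end Pool.Agent.T6.H68.BL
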