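import Mathlib

/-!
# Lattice points in balls: averages
-/

set_option autoImplicit false

namespace Pool.Agent.T6.H68.BL

open Module MeasureTheory Metric ZSpan
open scoped ENNReal Topology

/-- the lattice points in a ball -/
def GG {E : Type*} [NormedAddCommGroup E] (L : Submodule ℤ E) (Y : ℝ) : Set E :=
  {v | v ∈ L ∧ ‖v‖ ≤ Y}

section
variable {E : Type*} [NormedAddCommGroup E] [NormedSpace ℝ E] [FiniteDimensional ℝ E]
  (L : Submodule ℤ E) [DiscreteTopology L]

theorem GG_finite (Y : ℝ) : (GG L Y).Finite := by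
  have hP : ProperSpace E := FiniteDimensional.proper ℝ E
  have hc : IsClosed (L : Set E) := by
    have : DiscreteTopology L.toAddSubgroup := inferInstanceAs (DiscreteTopology L)
    exact AddSubgroup.isClosed_of_discrete (H := L.toAddSubgroup)
  have h1 : (closedBall (0 : E) Y ∩ (L : Set E)).Finite :=
    Metric.finite_isBounded_inter_isClosed DiscreteTopology.isDiscrete isBounded_closedBall hc
  refine h1.subset ?_
  rintro v ⟨hv, hvY⟩
  exact ⟨by rwa [mem_closedBall_zero_iff], hv⟩

omit [NormedSpace ℝ E] [FiniteDimensional ℝ E] [DiscreteTopology L] in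
theorem GG_mono {Y Y' : ℝ} (h : Y ≤ Y') : GG L Y ⊆ GG L Y' := fun _ hv => ⟨hv.1, hv.2.trans h⟩

theorem ncard_mono {Y Y' : ℝ} (h : Y ≤ Y') : (GG L Y).ncard ≤ (GG L Y').ncard :=
  Set.ncard_le_ncard (GG_mono L h) (GG_finite L Y')

/-- the number of lattice points in a translated ball -/
theorem shift_count (d : ℝ) (hd : ∀ x : E, ∃ v ∈ L, ‖x - v‖ ≤ d) (x : E) (Y : ℝ) :
    {g : L | ‖(g : E) + x‖ ≤ Y}.Finite ∧
    (GG L (Y - d)).ncard ≤ {g : L | ‖(g : E) + x‖ ≤ Y}.ncard ∧
      {g : L | ‖(g : E) + x‖ ≤ Y}.ncard ≤ (GG L (Y + d)).ncard := by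
  obtain ⟨v, hv, hvd⟩ := hd x
  let f : L → E := fun g => (g : E) + v
  have hf : Function.Injective f := by
    intro g g' h
    exact Subtype.ext (add_right_cancel h)
  have h1 : f '' {g : L | ‖(g : E) + x‖ ≤ Y} ⊆ GG L (Y + d) := by
    rintro _ ⟨g, hg, rfl⟩
    refine ⟨L.add_mem g.2 hv, ?_⟩
    have h2 : f g = ((g : E) + x) - (x - v) := by
      change (g : E) + v = _
      abel
    rw [h2]
    exact (norm_sub_le _ _).trans (add_le_add hg hvd)
  have h2 : GG L (Y - d) ⊆ f '' {g : L | ‖(g : E) + x‖ ≤ Y} := by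
    rintro u ⟨hu, huY⟩
    refine ⟨⟨u - v, L.sub_mem hu hv⟩, ?_, ?_⟩
    · change ‖u - v + x‖ ≤ Y
      have h3 : u - v + x = u + (x - v) := by abel
      rw [h3]
      exact (norm_add_le _ _).trans (by linarith)
    · change u - v + v = u
      abel
  have hfin : (f '' {g : L | ‖(g : E) + x‖ ≤ Y}).Finite := (GG_finite L _).subset h1
  have h3 := Set.ncard_image_of_injective {g : L | ‖(g : E) + x‖ ≤ Y} hf
  refine ⟨hfin.of_finite_image hf.injOn, ?_, ?_⟩
  · rw [← h3]
    exact Set.ncard_le_ncard h2 hfin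
  · rw [← h3]
    exact Set.ncard_le_ncard h1 (GG_finite L _)

variable [IsZLattice ℝ L]

theorem avg : ∃ c : ℝ, 0 ≤ c ∧ ∀ d : ℝ, (∀ x : E, ∃ v ∈ L, ‖x - v‖ ≤ d) → ∀ Y : ℝ, 0 ≤ Y →
    ((GG L (Y - d)).ncard : ℝ) ≤ c * Y ^ finrank ℝ E ∧
      c * Y ^ finrank ℝ E ≤ ((GG L (Y + d)).ncard : ℝ) := by
  borelize E
  have hP : ProperSpace E := FiniteDimensional.proper ℝ E
  set μ : Measure E := Measure.addHaar with hμ
  have hfin : Module.Finite ℤ L := ZLattice.module_finite ℝ L
  have hfree : Module.Free ℤ L := ZLattice.module_free ℝ L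
  let b := Module.Free.chooseBasis ℤ L
  set F : Set E := fundamentalDomain (b.ofZLatticeBasis ℝ L) with hF
  have hFD : IsAddFundamentalDomain L F μ := ZLattice.isAddFundamentalDomain b μ
  have hF0 : μ F ≠ 0 := measure_fundamentalDomain_ne_zero _
  have hFt : μ F ≠ ∞ := (fundamentalDomain_isBounded _).measure_lt_top.ne
  have hFr : 0 < (μ F).toReal := ENNReal.toReal_pos hF0 hFt
  refine ⟨(μ (closedBall (0 : E) 1)).toReal / (μ F).toReal, by positivity, ?_⟩
  intro d hd Y hY
  have hball : μ (closedBall (0 : E) Y) =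
      ENNReal.ofReal (Y ^ finrank ℝ E) * μ (closedBall (0 : E) 1) := by
    rw [Measure.addHaar_closedBall' μ 0 hY]
  have hcount : μ (closedBall (0 : E) Y) =
      ∫⁻ x in F, ({g : L | ‖(g : E) + x‖ ≤ Y}.ncard : ℝ≥0∞) ∂μ := by
    have h1 : μ (closedBall (0 : E) Y) =
        ∫⁻ x, (closedBall (0 : E) Y).indicator (fun _ => (1 : ℝ≥0∞)) x ∂μ := by
      rw [lintegral_indicator measurableSet_closedBall]
      simp
    have hinv : VAddInvariantMeasure L E μ :=
      inferInstanceAs (VAddInvariantMeasure L.toAddSubgroup E μ)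
    rw [h1, hFD.lintegral_eq_tsum'', ← lintegral_tsum]
    · refine lintegral_congr fun x => ?_
      have h2 := (shift_count L d hd x Y).1
      rw [tsum_eq_sum (s := h2.toFinset)]
      · rw [Set.ncard_eq_toFinset_card _ h2, Finset.card_eq_sum_ones, Nat.cast_sum]
        refine Finset.sum_congr rfl fun g hg => ?_
        rw [Set.Finite.mem_toFinset] at hg
        rw [Set.indicator_of_mem]
        · simp
        · rw [mem_closedBall_zero_iff]
          exact hg
      · intro g hg
        rw [Set.Finite.mem_toFinset] at hg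
        rw [Set.indicator_of_notMem]
        rw [mem_closedBall_zero_iff]
        exact hg
    · intro g
      have h3 : Measurable fun x : E => (g +ᵥ x : E) := by
        change Measurable fun x : E => (g : E) + x
        fun_prop
      exact ((measurable_const.indicator measurableSet_closedBall).comp h3).aemeasurable
  have hlow : ((GG L (Y - d)).ncard : ℝ≥0∞) * μ F ≤ μ (closedBall (0 : E) Y) := by
    rw [hcount, ← setLIntegral_const]
    refine lintegral_mono fun x => ?_
    exact Nat.cast_le.2 (shift_count L d hd x Y).2.1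
  have hup : μ (closedBall (0 : E) Y) ≤ ((GG L (Y + d)).ncard : ℝ≥0∞) * μ F := by
    rw [hcount, ← setLIntegral_const]
    refine lintegral_mono fun x => ?_
    exact Nat.cast_le.2 (shift_count L d hd x Y).2.2
  have hBt : μ (closedBall (0 : E) 1) ≠ ∞ := isBounded_closedBall.measure_lt_top.ne
  have hval : (μ (closedBall (0 : E) Y)).toReal =
      Y ^ finrank ℝ E * (μ (closedBall (0 : E) 1)).toReal := by
    rw [hball, ENNReal.toReal_mul, ENNReal.toReal_ofReal (by positivity)]
  have hYt : μ (closedBall (0 : E) Y) ≠ ∞ := isBounded_closedBall.measure_lt_top.ne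
  constructor
  · have h4 := ENNReal.toReal_mono hYt hlow
    rw [ENNReal.toReal_mul, ENNReal.toReal_natCast, hval] at h4
    rw [div_mul_eq_mul_div, le_div_iff₀ hFr]
    linarith
  · have h4 := ENNReal.toReal_mono (ENNReal.mul_ne_top (ENNReal.natCast_ne_top _) hFt) hup
    rw [ENNReal.toReal_mul, ENNReal.toReal_natCast, hval] at h4
    rw [div_mul_eq_mul_div, div_le_iff₀ hFr]
    linarith

end

end Pool.Agent.T6.H68.BL
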